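import Pool.Agent.H16.GZ.Targets4

/-!
# Board gz (MP_52e316_nt), row D4Z: the fourth moment of the sums of the eigenvalues
-/

set_option autoImplicit false

namespace Pool.Agent.H38.GZ

open MeasureTheory Pool.Agent.H34.GM Pool.Agent.H34.GZ

private lemma dz_twice {m q : ℕ} (Φ : Mat m → ℂ) (y : ℝ) {D : Set (V m)}
    (hD : MeasurableSet D) (F : Mat m → RM m q → ℂ) (c : ℂ)
    (hdm : ∀ z ∈ D, (mt z).det ≠ 0)
    (h : ∀ (g : Mat m) (x : RM m q), g.det ≠ 0 → opCz q Φ y D F g x = c * F g x)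
    (g : Mat m) (x : RM m q) (hg : g.det ≠ 0) :
    opCz q Φ y D (opCz q Φ y D F) g x = c * (c * F g x) := by
  rw [← h g x hg]
  unfold opCz
  rw [← integral_const_mul]
  apply setIntegral_congr_fun hD
  intro z hz
  simp only
  rw [← tsum_mul_left]
  apply tsum_congr
  intro α
  by_cases hc : y / 2 < (α.det.natAbs : ℝ) ∧ (α.det.natAbs : ℝ) ≤ y
  · rw [if_pos hc, if_pos hc]
    have h1 := h (mt z) (cQ q α * x) (hdm z hz)
    unfold opCz at h1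
    rw [h1]
    ring
  · rw [if_neg hc, if_neg hc, mul_zero]

private lemma dz_norm {m : ℕ} {R : Type} [Fintype R] {ι : Type} [DecidableEq ι] {D : Set (V m)}
    {F : ι → Mat m → R → ℂ} (hO : Orthn D F) (i : ι) :
    ∑ x : R, ∫⁻ z in D, ENNReal.ofReal (‖F i (mt z) x‖ ^ 2) ∂(hm m) = 1 := by
  have hI : ∀ x, IntegrableOn (fun z : V m => ‖F i (mt z) x‖ ^ 2) D (hm m) := by
    intro x
    have h1 := (hO.1 i i x).norm
    refine h1.congr (Filter.Eventually.of_forall ?_)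
    intro z
    simp only [norm_mul, RCLike.norm_conj]
    ring
  have h1 : ∀ x, ∫⁻ z in D, ENNReal.ofReal (‖F i (mt z) x‖ ^ 2) ∂(hm m) =
      ENNReal.ofReal (∫ z in D, ‖F i (mt z) x‖ ^ 2 ∂(hm m)) := by
    intro x
    rw [ofReal_integral_eq_lintegral_ofReal (hI x)
      (Filter.Eventually.of_forall fun z => by positivity)]
  rw [Finset.sum_congr rfl fun x _ => h1 x, ← ENNReal.ofReal_sum_of_nonneg]
  · have h2 := hO.2 i i
    rw [if_pos rfl] at h2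
    have h3 : ∑ x : R, ∫ z in D, F i (mt z) x * (starRingEnd ℂ) (F i (mt z) x) ∂(hm m) =
        ((∑ x : R, ∫ z in D, ‖F i (mt z) x‖ ^ 2 ∂(hm m) : ℝ) : ℂ) := by
      rw [Complex.ofReal_sum]
      apply Finset.sum_congr rfl
      intro x _
      rw [← integral_complex_ofReal]
      apply integral_congr_ae
      refine Filter.Eventually.of_forall ?_
      intro z
      simp only [RCLike.mul_conj]
      norm_cast
    rw [h3] at h2
    have h4 : (∑ x : R, ∫ z in D, ‖F i (mt z) x‖ ^ 2 ∂(hm m) : ℝ) = 1 := by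
      exact_mod_cast h2
    rw [h4, ENNReal.ofReal_one]
  · intro x _
    exact integral_nonneg fun z => by positivity

private lemma dz_log {q : ℕ} {y δ CM : ℝ} {AM : ℕ} (hq : 2 ≤ q) (hy : 1 ≤ y) (hδ : 0 < δ)
    (hδ2 : δ ≤ 1 / 2) (hCM : 1 ≤ CM) :
    2 ≤ CM * q * δ⁻¹ ^ AM ∧
    0 ≤ 1 + Real.log (y * (CM * q * δ⁻¹ ^ AM)) ∧
    1 + Real.log (y * (CM * q * δ⁻¹ ^ AM)) ≤
      (2 + Real.log CM + AM) * ((1 + Real.log (q * δ⁻¹)) * (1 + Real.log y)) := by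
  have hq' : (2 : ℝ) ≤ q := by exact_mod_cast hq
  have hdi : (2 : ℝ) ≤ δ⁻¹ := by
    rw [le_inv_comm₀ (by norm_num) hδ]
    linarith
  have hdi1 : (1 : ℝ) ≤ δ⁻¹ ^ AM := one_le_pow₀ (by linarith)
  have h1 : 2 ≤ CM * q * δ⁻¹ ^ AM := by
    have h2 : (1 : ℝ) * 2 ≤ CM * q := mul_le_mul hCM hq' (by norm_num) (by linarith)
    calc (2 : ℝ) = 1 * 2 * 1 := by ring
      _ ≤ CM * q * δ⁻¹ ^ AM := mul_le_mul h2 hdi1 (by norm_num) (by linarith)
  have hy0 : y ≠ 0 := by linarith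
  have hl : Real.log (y * (CM * q * δ⁻¹ ^ AM)) =
      Real.log y + (Real.log CM + Real.log q + AM * Real.log δ⁻¹) := by
    rw [Real.log_mul hy0 (by linarith), Real.log_mul (by positivity) (by positivity),
      Real.log_mul (by linarith) (by linarith), Real.log_pow]
  have hL : Real.log (q * δ⁻¹) = Real.log q + Real.log δ⁻¹ :=
    Real.log_mul (by linarith) (by linarith)
  have l1 : 0 ≤ Real.log y := Real.log_nonneg hy
  have l2 : 0 ≤ Real.log CM := Real.log_nonneg hCM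
  have l3 : 0 ≤ Real.log q := Real.log_nonneg (by linarith)
  have l4 : 0 ≤ Real.log δ⁻¹ := Real.log_nonneg (by linarith)
  have l5 : (0 : ℝ) ≤ AM := Nat.cast_nonneg _
  refine ⟨h1, ?_, ?_⟩
  · rw [hl]
    positivity
  · rw [hl, hL]
    have a1 := mul_nonneg l5 l3
    have a2 := mul_nonneg l5 l4
    have a3 := mul_nonneg l1 l3
    have a4 := mul_nonneg l1 l4
    have a5 : 0 ≤ (1 + Real.log CM + AM) *
        (Real.log q + Real.log δ⁻¹ + Real.log y + (Real.log q + Real.log δ⁻¹) * Real.log y) := by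
      positivity
    nlinarith [a1, a2, a3, a4, a5]

theorem pf_D4Z : T_HSZ → T_OCZ → T_TLB → T_MSS → T_ENZ → T_DYM → T_BMP → T_D4Z := by
  intro hHSZ hOCZ hTLB hMSS hENZ hDYM hBMP m χ hm1 hχ
  obtain ⟨cT, c1, hcT, hc1, hT⟩ := hTLB m χ hm1 hχ
  obtain ⟨cM, CM, AM, hcM, hCM, hM⟩ := hMSS m χ hm1 hχ
  obtain ⟨CE, KE, hCE, hE⟩ := hENZ m hm1
  have l2 : 0 ≤ Real.log CM := Real.log_nonneg hCM
  have hC3 : (0 : ℝ) < 2 + Real.log CM + AM := by positivity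
  refine ⟨min cT cM, 2 * (c1 ^ 4)⁻¹ * CE * (2 + Real.log CM + AM) ^ KE, 4 * m ^ 2, KE,
    lt_min hcT hcM, by positivity, ?_⟩
  intro q _ T D hS ι _ _ F lam mu hF hO δ hδ hδ2 hδc y hy
  obtain ⟨hY2, hlog0, hlog⟩ := dz_log (q := q) (y := y) (δ := δ) (CM := CM) (AM := AM)
    hS.two_le hy hδ hδ2 hCM
  set Y : ℝ := CM * q * δ⁻¹ ^ AM with hYdef
  have hmz : (m : ℝ) ≠ 0 := by positivity
  have hdm : ∀ z ∈ D, (mt z).det ≠ 0 := by
    intro z hz h0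
    have h1 := (hS.dom.shell z hz).1
    unfold aN at h1
    rw [h0, abs_zero, Real.zero_rpow (one_div_ne_zero hmz)] at h1
    norm_num at h1
  have hSD : DY D Y ⊆ D := fun z hz => hz.1
  have hSm : MeasurableSet (DY D Y) := hDYM m D hS.dom Y
  have hΦ : Tst m (bump m χ δ) := ((hBMP m χ hm1 hχ).1 δ hδ hδ2).1
  set th : ι → ℂ := fun i => th1 (bump m χ δ) (mu i) 1 with hth
  set d : ι → ℂ := fun i => DF m q (lam i) y with hd
  have h1 : ∀ i (g : Mat m) (x : RM m q), g.det ≠ 0 →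
      opCz q (bump m χ δ) y D (F i) g x = (th i * d i) * F i g x := fun i g x hg =>
    hOCZ m q T D hS (F i) (lam i) (mu i) (hF i).toEigZ _ hΦ y g x hg
  have h2 : ∀ i (g : Mat m) (x : RM m q), g.det ≠ 0 →
      opCz q (bump m χ δ) y D (opCz q (bump m χ δ) y D (F i)) g x =
        (th i * d i) * ((th i * d i) * F i g x) := fun i g x hg =>
    dz_twice (bump m χ δ) y hS.dom.meas (F i) (th i * d i) hdm (h1 i) g x hg
  have h3 := hHSZ m q T D hS ι F lam mu (fun i => (hF i).toEigZ) hO χ δ hχ hδ hδ2 y (DY D Y)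
    hSD hSm
  have h4 := h3.trans (hE q D hS.two_le hS.dom y Y hy hY2)
  have h5 : ∀ i, ENNReal.ofReal ((c1 * δ ^ (m ^ 2)) ^ 4 * ‖d i‖ ^ 4 * (1 / 2)) ≤
      ∑ x, ∫⁻ g in DY D Y, ENNReal.ofReal (‖opCz q (bump m χ δ) y D
        (opCz q (bump m χ δ) y D (F i)) (mt g) x‖ ^ 2) ∂(hm m) := by
    intro i
    have e1 : ∑ x, ∫⁻ g in DY D Y, ENNReal.ofReal (‖opCz q (bump m χ δ) y D
        (opCz q (bump m χ δ) y D (F i)) (mt g) x‖ ^ 2) ∂(hm m) =
        ENNReal.ofReal (‖th i‖ ^ 4 * ‖d i‖ ^ 4) *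
          ∑ x, ∫⁻ g in DY D Y, ENNReal.ofReal (‖F i (mt g) x‖ ^ 2) ∂(hm m) := by
      rw [Finset.mul_sum]
      apply Finset.sum_congr rfl
      intro x _
      rw [← lintegral_const_mul' _ _ ENNReal.ofReal_ne_top]
      apply setLIntegral_congr_fun hSm
      intro g hg
      simp only
      rw [h2 i (mt g) x (hdm g (hSD hg)), ← ENNReal.ofReal_mul (by positivity)]
      congr 1
      simp only [norm_mul]
      ring
    rw [e1]
    have e2 := hM q T D hS (F i) (lam i) (mu i) (hF i) (dz_norm hO i) δ hδ hδ2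
      ((hδc i).trans (min_le_right _ _)) Y le_rfl
    have e3 := hT (mu i) δ hδ hδ2 (hF i).tr0 ((hδc i).trans (min_le_left _ _))
    have e4 : (c1 * δ ^ (m ^ 2)) ^ 4 * ‖d i‖ ^ 4 ≤ ‖th i‖ ^ 4 * ‖d i‖ ^ 4 :=
      mul_le_mul_of_nonneg_right (pow_le_pow_left₀ (by positivity) e3 4) (by positivity)
    calc ENNReal.ofReal ((c1 * δ ^ (m ^ 2)) ^ 4 * ‖d i‖ ^ 4 * (1 / 2))
        = ENNReal.ofReal ((c1 * δ ^ (m ^ 2)) ^ 4 * ‖d i‖ ^ 4) * (1 / 2) := by
          rw [ENNReal.ofReal_mul (by positivity)]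
          congr 1
          rw [ENNReal.ofReal_div_of_pos (by norm_num)]
          norm_num
      _ ≤ _ := mul_le_mul' (ENNReal.ofReal_le_ofReal e4) e2
  have h6 := (Finset.sum_le_sum fun i _ => h5 i).trans h4
  rw [← ENNReal.ofReal_sum_of_nonneg (fun i _ => by positivity),
    ENNReal.ofReal_le_ofReal_iff (by positivity)] at h6
  have h7 : ∑ i, (c1 * δ ^ (m ^ 2)) ^ 4 * ‖d i‖ ^ 4 * (1 / 2) =
      (c1 * δ ^ (m ^ 2)) ^ 4 / 2 * ∑ i, ‖d i‖ ^ 4 := by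
    rw [Finset.mul_sum]
    exact Finset.sum_congr rfl fun i _ => by ring
  rw [h7] at h6
  have h8 : (1 + Real.log (y * Y)) ^ KE ≤
      ((2 + Real.log CM + AM) * ((1 + Real.log (q * δ⁻¹)) * (1 + Real.log y))) ^ KE :=
    pow_le_pow_left₀ hlog0 hlog KE
  have hp : (0 : ℝ) < (c1 * δ ^ (m ^ 2)) ^ 4 / 2 := by positivity
  have h9 : ∑ i, ‖d i‖ ^ 4 ≤ ((c1 * δ ^ (m ^ 2)) ^ 4 / 2)⁻¹ *
      (CE * (q : ℝ) ^ (m ^ 2) * (1 + Real.log (y * Y)) ^ KE * y ^ (2 * m) *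
        (1 + y ^ 2 / (q : ℝ) ^ m) ^ m) := by
    rw [inv_mul_eq_div, le_div_iff₀ hp, mul_comm]
    exact h6
  refine h9.trans ?_
  have hy0 : 0 ≤ y := by linarith
  calc ((c1 * δ ^ (m ^ 2)) ^ 4 / 2)⁻¹ *
      (CE * (q : ℝ) ^ (m ^ 2) * (1 + Real.log (y * Y)) ^ KE * y ^ (2 * m) *
        (1 + y ^ 2 / (q : ℝ) ^ m) ^ m)
      ≤ ((c1 * δ ^ (m ^ 2)) ^ 4 / 2)⁻¹ *
      (CE * (q : ℝ) ^ (m ^ 2) *
        ((2 + Real.log CM + AM) * ((1 + Real.log (q * δ⁻¹)) * (1 + Real.log y))) ^ KE *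
          y ^ (2 * m) * (1 + y ^ 2 / (q : ℝ) ^ m) ^ m) := by
        gcongr
    _ = _ := by
        have e1 : ((c1 * δ ^ (m ^ 2)) ^ 4 / 2)⁻¹ = 2 * (c1 ^ 4)⁻¹ * δ⁻¹ ^ (4 * m ^ 2) := by
          rw [mul_pow, ← pow_mul, mul_comm (m ^ 2) 4, inv_div, inv_pow, div_eq_mul_inv, mul_inv]
          ring
        rw [e1, mul_pow, mul_pow]
        ring

end Pool.Agent.H38.GZ
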