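import Pool.Agent.H16.GZ.Targets4

/-!
# Board gz (MP_52e316_nt), row OCZ: the forms are eigenfunctions of the operators `opCz`
-/

set_option autoImplicit false

namespace Pool.Agent.H38.GZ

open MeasureTheory Pool.Agent.H34.GM Pool.Agent.H34.GZ

private lemma ei_inv {m : ℕ} {γ : ZM m} (h : IsUnit γ) :
    IsUnit (Ring.inverse γ) ∧ γ * Ring.inverse γ = 1 ∧ Ring.inverse γ * γ = 1 :=
  ⟨h.ringInverse, Ring.mul_inverse_cancel _ h, Ring.inverse_mul_cancel _ h⟩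

private lemma ei_aN_pos {m : ℕ} {z : Mat m} (hz : z.det ≠ 0) : 0 < aN z :=
  Real.rpow_pos_of_pos (abs_pos.mpr hz) _

private lemma ei_kk {m : ℕ} (r : ℝ) (z γ ρ g : Mat m) (hγ : |γ.det| = 1) :
    kk r (γ * z) ρ g = kk r z (γ⁻¹ * ρ) g := by
  unfold kk aN
  rw [Matrix.det_mul, abs_mul, hγ, one_mul, Matrix.mul_inv_rev]
  congr 1
  simp only [Matrix.mul_assoc]

/-- the sum over the integer matrices as a finite sum of sums over the units -/
private lemma ei_sum {m : ℕ} {T : ℕ → Finset (ZM m)} (hT : RepsZ m T)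
    (hun : ∀ γ : ZM m, IsUnit γ → γ.det.natAbs = 1) (N0 : ℕ) (t : ZM m → ℂ)
    (h0 : ∀ α : ZM m, α.det = 0 → t α = 0) (hN0 : ∀ α : ZM m, t α ≠ 0 → α.det.natAbs ≤ N0)
    (hs : ∀ n ∈ Finset.Icc 1 N0, ∀ ρ ∈ T n,
      Summable fun γ : {γ : ZM m // IsUnit γ} => t (Ring.inverse γ.1 * ρ)) :
    ∑' α : ZM m, t α = ∑ n ∈ Finset.Icc 1 N0, ∑ ρ ∈ T n,
      ∑' γ : {γ : ZM m // IsUnit γ}, t (Ring.inverse γ.1 * ρ) := by
  classical
  set S : Finset (Σ _ : ℕ, ZM m) := (Finset.Icc 1 N0).sigma T with hS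
  have hS1 : ∀ p : S, 1 ≤ p.1.1 ∧ p.1.1 ∈ Finset.Icc 1 N0 ∧ p.1.2 ∈ T p.1.1 := by
    intro p
    have h1 := Finset.mem_sigma.mp p.2
    exact ⟨(Finset.mem_Icc.mp h1.1).1, h1.1, h1.2⟩
  let f : S × {γ : ZM m // IsUnit γ} → ZM m := fun p => Ring.inverse p.2.1 * p.1.1.2
  have hdet : ∀ p : S × {γ : ZM m // IsUnit γ}, (f p).det.natAbs = p.1.1.1 := by
    intro p
    change (Ring.inverse p.2.1 * p.1.1.2).det.natAbs = p.1.1.1
    rw [Matrix.det_mul, Int.natAbs_mul, hun _ (ei_inv p.2.2).1, one_mul]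
    exact hT.mem _ (hS1 p.1).1 _ (hS1 p.1).2.2
  have hinj : Function.Injective f := by
    rintro ⟨⟨⟨n, ρ⟩, hp⟩, γ⟩ ⟨⟨⟨n', ρ'⟩, hp'⟩, γ'⟩ hff
    have hff1 : Ring.inverse γ.1 * ρ = Ring.inverse γ'.1 * ρ' := hff
    have hd := hdet ⟨⟨⟨n, ρ⟩, hp⟩, γ⟩
    have hd' := hdet ⟨⟨⟨n', ρ'⟩, hp'⟩, γ'⟩
    have hnn : n = n' := by
      rw [hff, hd'] at hd
      exact hd.symm
    subst hnn
    obtain ⟨h1, h2, h3⟩ := hS1 ⟨⟨n, ρ⟩, hp⟩
    obtain ⟨h1', h2', h3'⟩ := hS1 ⟨⟨n, ρ'⟩, hp'⟩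
    simp only at h1 h2 h3 h1' h2' h3'
    obtain ⟨α, -, hα⟩ := hT.uniq n h1 _ hd
    have e1 := hα ρ ⟨h3, Ring.inverse γ.1, (ei_inv γ.2).1, rfl⟩
    have e2 := hα ρ' ⟨h3', Ring.inverse γ'.1, (ei_inv γ'.2).1, hff1⟩
    have e3 : ρ = ρ' := e1.trans e2.symm
    subst e3
    have hρ : ρ.det ≠ 0 := by
      intro hz
      have h4 := hT.mem n h1 ρ h3
      rw [hz] at h4
      simp only [Int.natAbs_zero] at h4
      omega
    have hgg : Ring.inverse γ.1 = Ring.inverse γ'.1 := by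
      have h5 : Ring.inverse γ.1 * ρ * ρ.adjugate = Ring.inverse γ'.1 * ρ * ρ.adjugate := by
        rw [hff1]
      rw [Matrix.mul_assoc, Matrix.mul_assoc, Matrix.mul_adjugate, Matrix.mul_smul,
        Matrix.mul_smul, Matrix.mul_one, Matrix.mul_one] at h5
      exact smul_right_injective (ZM m) hρ h5
    have hgg2 : γ.1 = γ'.1 := by
      have a1 := ei_inv γ.2
      have a2 := ei_inv γ'.2
      calc γ.1 = γ.1 * (Ring.inverse γ'.1 * γ'.1) := by rw [a2.2.2, mul_one]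
        _ = γ.1 * (Ring.inverse γ.1 * γ'.1) := by rw [hgg]
        _ = (γ.1 * Ring.inverse γ.1) * γ'.1 := by rw [mul_assoc]
        _ = γ'.1 := by rw [a1.2.1, one_mul]
    have hgg3 : γ = γ' := Subtype.ext hgg2
    subst hgg3
    rfl
  have hsupp : Function.support t ⊆ Set.range f := by
    intro α hα
    have hα1 : t α ≠ 0 := hα
    have hα0 : α.det ≠ 0 := fun hz => hα1 (h0 α hz)
    have hn1 : 1 ≤ α.det.natAbs := Nat.one_le_iff_ne_zero.2 (Int.natAbs_ne_zero.2 hα0)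
    have hn4 := hN0 α hα1
    obtain ⟨ρ, ⟨hρ, γ, hγ, hγρ⟩, -⟩ := hT.uniq _ hn1 α rfl
    have hp : (⟨α.det.natAbs, ρ⟩ : Σ _ : ℕ, ZM m) ∈ S := by
      rw [hS, Finset.mem_sigma]
      exact ⟨Finset.mem_Icc.mpr ⟨hn1, hn4⟩, hρ⟩
    refine ⟨⟨⟨⟨α.det.natAbs, ρ⟩, hp⟩, ⟨Ring.inverse γ, (ei_inv hγ).1⟩⟩, ?_⟩
    change Ring.inverse (Ring.inverse γ) * ρ = α
    have h6 : Ring.inverse (Ring.inverse γ) = γ := by
      have a1 := ei_inv hγ
      have a2 := ei_inv a1.1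
      calc Ring.inverse (Ring.inverse γ) = Ring.inverse (Ring.inverse γ) *
            (Ring.inverse γ * γ) := by rw [a1.2.2, mul_one]
        _ = γ := by rw [← mul_assoc, a2.2.2, one_mul]
    rw [h6, hγρ]
  have h1 : ∑' p, t (f p) = ∑' α : ZM m, t α := hinj.tsum_eq hsupp
  rw [← h1]
  have hsm : Summable (fun p : S × {γ : ZM m // IsUnit γ} => t (f p)) := by
    apply Summable.of_norm
    rw [summable_prod_of_nonneg (fun _ => norm_nonneg _)]
    refine ⟨fun p => (hs p.1.1 (hS1 p).2.1 _ (hS1 p).2.2).norm, ?_⟩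
    exact (hasSum_fintype _).summable
  rw [hsm.tsum_prod, tsum_fintype, Finset.sum_sigma', ← hS]
  exact Finset.sum_coe_sort S
    (fun p => ∑' γ : {γ : ZM m // IsUnit γ}, t (Ring.inverse γ.1 * p.2))

theorem pf_OCZ : T_UNZ → T_EZ1 → T_ALZ → T_OCZ := by
  intro hUNZ hEZ1 hALZ m q _ T D hS F lam mu hF Φ hΦ y g x hg
  have hm1 : 1 ≤ m := hS.one_le
  obtain ⟨⟨⟨hR1, hRm⟩, hRd⟩, ⟨-, -, hQm, -, -⟩, -, hQu, hun, hxy, -⟩ :=
    hALZ m q hm1 hS.two_le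
  have hun1 : ∀ γ : ZM m, IsUnit γ → γ.det.natAbs = 1 := fun γ hγ => (hun γ).1 hγ
  have hUN := (hUNZ m hm1 D hS.dom).2
  have hmz : (m : ℝ) ≠ 0 := by positivity
  have hdm : ∀ z ∈ D, (mt z).det ≠ 0 := by
    intro z hz h0
    have h1 := (hS.dom.shell z hz).1
    unfold aN at h1
    rw [h0, abs_zero, Real.zero_rpow (one_div_ne_zero hmz)] at h1
    norm_num at h1
  have hT1 : ∀ n ∈ Finset.Icc 1 ⌊y⌋₊, ∀ ρ ∈ T n,
      1 ≤ n ∧ ρ.det.natAbs = n ∧ (cR ρ).det ≠ 0 ∧ (n : ℝ) ≤ y := by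
    intro n hn ρ hρ
    obtain ⟨h1, h1'⟩ := Finset.mem_Icc.mp hn
    have h2 := hS.reps.mem n h1 ρ hρ
    refine ⟨h1, h2, ?_, ?_⟩
    · intro h3
      have h4 := (hRd ρ).2
      rw [h3, abs_zero, h2] at h4
      have h5 : (1 : ℝ) ≤ n := by exact_mod_cast h1
      linarith
    · exact (Nat.le_floor_iff' (by omega)).1 h1'
  have hfi : ∀ n ∈ Finset.Icc 1 ⌊y⌋₊, ∀ ρ ∈ T n,
      IntegrableOn (fun z : V m => Φ (kk (aN (cR ρ)) (mt z) (cR ρ) g) * F (mt z) (cQ q ρ * x))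
        (Shell m) (hm m) ∧
      ∫ z in Shell m, Φ (kk (aN (cR ρ)) (mt z) (cR ρ) g) * F (mt z) (cQ q ρ * x) ∂(hm m) =
        th1 Φ mu 1 * F (cR ρ * g) (cQ q ρ * x) := by
    intro n hn ρ hρ
    obtain ⟨h1, h3, h4, -⟩ := hT1 n hn ρ hρ
    have h6 := ei_aN_pos h4
    have h5 := hEZ1 m q T D hS F lam mu hF Φ hΦ (cR ρ) g (aN (cR ρ)) (cQ q ρ * x) h4 hg h6
    refine ⟨h5.1, ?_⟩
    rw [h5.2, mul_inv_cancel₀ h6.ne']
  have hfj : ∀ n ∈ Finset.Icc 1 ⌊y⌋₊, ∀ ρ ∈ T n,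
      IntegrableOn (fun z : V m => if y / 2 < (n : ℝ) then
        Φ (kk (aN (cR ρ)) (mt z) (cR ρ) g) * F (mt z) (cQ q ρ * x) else 0)
        (Shell m) (hm m) ∧
      ∫ z in Shell m, (if y / 2 < (n : ℝ) then
        Φ (kk (aN (cR ρ)) (mt z) (cR ρ) g) * F (mt z) (cQ q ρ * x) else 0) ∂(hm m) =
        (if y / 2 < (n : ℝ) then th1 Φ mu 1 * F (cR ρ * g) (cQ q ρ * x) else 0) := by
    intro n hn ρ hρ
    by_cases hc : y / 2 < (n : ℝ)
    · simp only [if_pos hc]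
      exact hfi n hn ρ hρ
    · simp only [if_neg hc]
      exact ⟨integrable_zero _ _ _, integral_zero _ _⟩
  have hae : ∀ᵐ z ∂((hm m).restrict D), ∀ n ∈ Finset.Icc 1 ⌊y⌋₊, ∀ ρ ∈ T n,
      Summable fun γ : {γ : ZM m // IsUnit γ} => if y / 2 < (n : ℝ) then
        Φ (kk (aN (cR ρ)) (mt (fun i j => (cR γ.1 * mt z) i j)) (cR ρ) g) *
          F (mt (fun i j => (cR γ.1 * mt z) i j)) (cQ q ρ * x) else 0 := by
    rw [Filter.eventually_all_finset]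
    intro n hn
    rw [Filter.eventually_all_finset]
    intro ρ hρ
    exact (hUN _ (hfj n hn ρ hρ).1).2.1
  have hkey : ∀ᵐ z ∂((hm m).restrict D),
      ∑' α : ZM m, (if y / 2 < (α.det.natAbs : ℝ) ∧ (α.det.natAbs : ℝ) ≤ y then
        Φ (kk (aN (cR α)) (mt z) (cR α) g) * F (mt z) (cQ q α * x) else 0) =
      ∑ n ∈ Finset.Icc 1 ⌊y⌋₊, ∑ ρ ∈ T n, ∑' γ : {γ : ZM m // IsUnit γ},
        (if y / 2 < (n : ℝ) then
          Φ (kk (aN (cR ρ)) (mt (fun i j => (cR γ.1 * mt z) i j)) (cR ρ) g) *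
          F (mt (fun i j => (cR γ.1 * mt z) i j)) (cQ q ρ * x) else 0) := by
    filter_upwards [hae, ae_restrict_mem hS.dom.meas] with z hz hzD
    have hzd := hdm z hzD
    have hpt : ∀ n ∈ Finset.Icc 1 ⌊y⌋₊, ∀ ρ ∈ T n, ∀ γ : {γ : ZM m // IsUnit γ},
        (if y / 2 < (n : ℝ) then
          Φ (kk (aN (cR ρ)) (mt (fun i j => (cR γ.1 * mt z) i j)) (cR ρ) g) *
          F (mt (fun i j => (cR γ.1 * mt z) i j)) (cQ q ρ * x) else 0) =
        (if y / 2 < (((Ring.inverse γ.1 * ρ).det.natAbs : ℕ) : ℝ) ∧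
            (((Ring.inverse γ.1 * ρ).det.natAbs : ℕ) : ℝ) ≤ y then
          Φ (kk (aN (cR (Ring.inverse γ.1 * ρ))) (mt z) (cR (Ring.inverse γ.1 * ρ)) g) *
          F (mt z) (cQ q (Ring.inverse γ.1 * ρ) * x) else 0) := by
      intro n hn ρ hρ γ
      obtain ⟨h1, h2, h3, h4⟩ := hT1 n hn ρ hρ
      have hg1 := ei_inv γ.2
      have hd : (Ring.inverse γ.1 * ρ).det.natAbs = n := by
        rw [Matrix.det_mul, Int.natAbs_mul, hun1 _ hg1.1, one_mul, h2]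
      have hdR : aN (cR (Ring.inverse γ.1 * ρ)) = aN (cR ρ) := by
        unfold aN
        rw [(hRd _).2, (hRd _).2, hd, h2]
      rw [hd, hdR]
      by_cases hc : y / 2 < (n : ℝ)
      · rw [if_pos hc, if_pos ⟨hc, h4⟩]
        have e1 : mt (fun i j => (cR γ.1 * mt z) i j) = cR γ.1 * mt z := rfl
        have hdγ : |(cR γ.1).det| = 1 := by
          rw [(hRd γ.1).2, hun1 _ γ.2, Nat.cast_one]
        have e0 : (cR γ.1)⁻¹ = cR (Ring.inverse γ.1) := by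
          apply Matrix.inv_eq_right_inv
          rw [← (hRm _ _).1, hg1.2.1, hR1]
        rw [e1, ei_kk _ (mt z) (cR γ.1) (cR ρ) g hdγ, e0, ← (hRm _ _).1]
        have e2 : cQ q ρ * x = cQ q γ.1 * (cQ q (Ring.inverse γ.1 * ρ) * x) := by
          rw [← mul_assoc, ← (hQm _ _).1, ← mul_assoc, hg1.2.1, one_mul]
        rw [e2, hF.auto _ γ.2 _ _ hzd]
      · rw [if_neg hc, if_neg (fun h => hc h.1)]
    rw [ei_sum hS.reps hun1 ⌊y⌋₊
      (fun α => if y / 2 < (α.det.natAbs : ℝ) ∧ (α.det.natAbs : ℝ) ≤ y then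
        Φ (kk (aN (cR α)) (mt z) (cR α) g) * F (mt z) (cQ q α * x) else 0)]
    · apply Finset.sum_congr rfl
      intro n hn
      apply Finset.sum_congr rfl
      intro ρ hρ
      exact tsum_congr fun γ => (hpt n hn ρ hρ γ).symm
    · intro α hα
      have h1 : ¬ (y / 2 < (α.det.natAbs : ℝ) ∧ (α.det.natAbs : ℝ) ≤ y) := by
        rw [hα, Int.natAbs_zero, Nat.cast_zero]
        rintro ⟨h1, h2⟩
        linarith
      exact if_neg h1
    · intro α hne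
      have h1 : y / 2 < (α.det.natAbs : ℝ) ∧ (α.det.natAbs : ℝ) ≤ y := by
        by_contra h2
        exact hne (if_neg h2)
      exact Nat.le_floor h1.2
    · intro n hn ρ hρ
      refine (hz n hn ρ hρ).congr ?_
      intro γ
      exact hpt n hn ρ hρ γ
  unfold opCz
  rw [integral_congr_ae hkey, integral_finsetSum, DF, Finset.mul_sum, Finset.sum_mul]
  · apply Finset.sum_congr rfl
    intro n hn
    rw [integral_finsetSum]
    · have h1 : ∀ ρ ∈ T n, ∫ z in D, ∑' γ : {γ : ZM m // IsUnit γ},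
          (if y / 2 < (n : ℝ) then
            Φ (kk (aN (cR ρ)) (mt (fun i j => (cR γ.1 * mt z) i j)) (cR ρ) g) *
            F (mt (fun i j => (cR γ.1 * mt z) i j)) (cQ q ρ * x) else 0) ∂(hm m) =
          (if y / 2 < (n : ℝ) then th1 Φ mu 1 * F (cR ρ * g) (cQ q ρ * x) else 0) := by
        intro ρ hρ
        rw [← (hfj n hn ρ hρ).2]
        exact (hUN _ (hfj n hn ρ hρ).1).2.2.symm
      rw [Finset.sum_congr rfl h1]
      by_cases hc : y / 2 < (n : ℝ)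
      · simp only [hc, true_and, if_true]
        rw [← Finset.mul_sum]
        by_cases hq : n.Coprime q
        · rw [if_pos hq, hF.hecke n (Finset.mem_Icc.mp hn).1 hq g x hg]
          ring
        · rw [if_neg hq, mul_zero, zero_mul]
          have h2 : ∑ ρ ∈ T n, F (cR ρ * g) (cQ q ρ * x) = 0 := by
            apply Finset.sum_eq_zero
            intro ρ hρ
            apply hF.supp
            intro hu
            have h3 := (hQu ρ).1 ((hxy _ _).1 hu).1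
            rw [(hT1 n hn ρ hρ).2.1] at h3
            exact hq h3
          rw [h2, mul_zero]
      · rw [if_neg (fun h => hc h.1), mul_zero, zero_mul]
        apply Finset.sum_eq_zero
        intro ρ hρ
        exact if_neg hc
    · intro ρ hρ
      exact (hUN _ (hfj n hn ρ hρ).1).1
  · intro n hn
    apply integrable_finsetSum
    intro ρ hρ
    exact (hUN _ (hfj n hn ρ hρ).1).1

end Pool.Agent.H38.GZ
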